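import Pool.Agent.Lib.MP_7bd500_al.Main

/-
A finitely generated, solvable (hence amenable), LERF group that is not permutation stable.
-/

set_option autoImplicit false

namespace Pool.Agent.Results.MP_7bd500_al.NotStable

/-- Normalised Hamming distance between two permutations of a finite set. -/
noncomputable def hamming {X : Type} (σ τ : Equiv.Perm X) : ℝ :=
  (Nat.card {x : X // σ x ≠ τ x} : ℝ) / (Nat.card X : ℝ)

/-- Amenability: there is a left invariant finitely additive probability measure on all subsets. -/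
def IsAmenable (G : Type) [Group G] : Prop :=
  ∃ μ : Set G → ℝ, (∀ A, 0 ≤ μ A) ∧ μ Set.univ = 1 ∧
    (∀ A B : Set G, Disjoint A B → μ (A ∪ B) = μ A + μ B) ∧
    ∀ (g : G) (A : Set G), μ ((fun x => g * x) '' A) = μ A

/-- LERF: every finitely generated subgroup is an intersection of finite index subgroups. -/
def IsLERF (G : Type) [Group G] : Prop :=
  ∀ H : Subgroup G, H.FG → ∃ 𝒦 : Set (Subgroup G), (∀ L ∈ 𝒦, L.FiniteIndex) ∧ H = sInf 𝒦

/-- Permutation stability of the presentation `G = F_S / ker π`. -/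
def IsStablePresentation {S G : Type} [Group G] (π : FreeGroup S →* G) : Prop :=
  ∀ (X : ℕ → Type) [∀ n, Finite (X n)] (φ : ∀ n, FreeGroup S →* Equiv.Perm (X n)),
    (∀ w ∈ π.ker, Filter.Tendsto (fun n => hamming (φ n w) 1) Filter.atTop (nhds 0)) →
    ∃ ψ : ∀ n, FreeGroup S →* Equiv.Perm (X n), (∀ n, π.ker ≤ (ψ n).ker) ∧
      ∀ s : S, Filter.Tendsto
        (fun n => hamming (φ n (FreeGroup.of s)) (ψ n (FreeGroup.of s))) Filter.atTop (nhds 0)

theorem result : ∃ (G : Type) (_ : Group G), Group.FG G ∧ Group.IsSolvable G ∧ IsAmenable G ∧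
    IsLERF G ∧ ∀ (S : Type) (π : FreeGroup S →* G), Function.Surjective π →
      ¬ IsStablePresentation π := by
  obtain ⟨G, hG, h1, h2, h3, h4, h5⟩ := Pool.Agent.Lib.MP_7bd500_al.main
  refine ⟨G, hG, h1, h2, h3, fun H hH => ?_, fun S π hπ hst => ?_⟩
  · refine ⟨{L | L.FiniteIndex ∧ H ≤ L}, fun L hL => hL.1, le_antisymm (le_sInf fun L hL => hL.2) ?_⟩
    intro g hg
    by_contra hgH
    obtain ⟨L, hL1, hL2, hL3⟩ := h4 H hH g hgH
    exact hL3 (Subgroup.mem_sInf.1 hg L ⟨hL1, hL2⟩)
  · obtain ⟨X, hX, φ, a1, a2⟩ := h5 S π hπ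
    refine a2 (hst X φ fun w hw => ?_)
    refine tendsto_const_nhds.congr' ?_
    filter_upwards [a1 w hw] with n hn
    simp [hamming, hn]

end Pool.Agent.Results.MP_7bd500_al.NotStable
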